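import Mathlib
import Pool.Agent.TH351.HadFinalB

/-!
# Clique minors of Cayley graphs of abelian groups with independence number two

MP_b47bfb_co: Q1 (and, for even order, Hadwiger's conjecture) for Cayley graphs of abelian groups
with independence number at most two, from one or two nonneighbours of `0`, and clique minors of
half the order in graphs with independence number at most two and a suitable automorphism.
-/

set_option autoImplicit false

namespace Pool.Agent.Results.MP_b47bfb_co.AbelianCayleyAlphaTwo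

open Pool.Agent.TH351.Shift Pool.Agent.H484R3.Circ

/-- `K_k` is a minor of `G`: there are `k` pairwise disjoint vertex sets, each inducing a connected
subgraph, any two of them joined by an edge of `G`. -/
def HasCliqueMinor {V : Type} (G : SimpleGraph V) (k : ℕ) : Prop :=
  ∃ f : Fin k → Set V,
    (∀ i, (G.induce (f i)).Connected) ∧
    (∀ i j, i ≠ j → Disjoint (f i) (f j)) ∧
    (∀ i j, i ≠ j → ∃ u ∈ f i, ∃ v ∈ f j, G.Adj u v)

/-- `G` has no three distinct pairwise nonadjacent vertices. -/
def AlphaAtMostTwo {V : Type} (G : SimpleGraph V) : Prop :=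
  ∀ x y z : V, x ≠ y → y ≠ z → x ≠ z → G.Adj x y ∨ G.Adj y z ∨ G.Adj x z

/-- `G` is a Cayley graph of the abelian group `A`: adjacency is invariant under translations. -/
def IsCayley {A : Type} [AddCommGroup A] (G : SimpleGraph A) : Prop :=
  ∀ x y z : A, G.Adj (x + z) (y + z) ↔ G.Adj x y

theorem even_color {A : Type} [AddCommGroup A] [Fintype A] {G : SimpleGraph A} (hG : TransInv G)
    (heven : Even (Fintype.card A)) (hconn : Gᶜ.Connected) : G.Colorable (Fintype.card A / 2) := by
  classical
  obtain ⟨a, m, hm, hn⟩ := Nat.exists_eq_two_pow_mul_odd (n := Fintype.card A)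
    (Fintype.card_pos (α := A)).ne'
  have hB : (nsmulAddMonoidHom m : A →+ A).ker ≠ ⊤ := by
    intro h
    obtain ⟨f, hf⟩ := exists_prime_addOrderOf_dvd_card 2 (G := A) heven.two_dvd
    have h1 : f ∈ (nsmulAddMonoidHom m : A →+ A).ker := by rw [h]; trivial
    have h2 : m • f = 0 := h1
    have h5 : 2 ∣ m := by rw [← hf]; exact addOrderOf_dvd_of_nsmul_eq_zero h2
    exact (Nat.not_even_iff_odd.mpr hm) (even_iff_two_dvd.mpr h5)
  obtain ⟨s, hs, hsB⟩ := conn_exists hG hconn _ hB
  have hse : Even (addOrderOf s) := by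
    by_contra ho
    rw [Nat.not_even_iff_odd] at ho
    apply hsB
    show m • s = 0
    rw [← addOrderOf_dvd_iff_nsmul_eq_zero]
    have h1 : addOrderOf s ∣ 2 ^ a * m := by rw [← hn]; exact addOrderOf_dvd_card
    have h2 : Nat.Coprime (addOrderOf s) (2 ^ a) := by
      apply Nat.Coprime.pow_right
      exact (Nat.coprime_two_right).mpr ho
    exact h2.dvd_of_dvd_mul_left h1
  refine colorable_even hG hs.2 hse ?_
  obtain ⟨t, ht⟩ := heven
  omega

/-- (1) Let `G` be a finite graph with independence number at most two on `n` vertices and `g` an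
automorphism of `G` such that `x` and `g (g x)` are distinct and nonadjacent for all vertices `x`.
Suppose that at most one cycle of `g` has odd length, or that `g` has at most three cycles, all of
odd length, or that all cycles of `g` are odd and for some `q ≤ 3` there are at most `2 q + 1` of
them, `2 q` of which are paired by `q` nonadjacent pairs of vertices.  Then `G` has a
`K_{⌊n/2⌋}` minor.
(2) Let `G` be a Cayley graph of an abelian group `A` of odd order `n`, with independence number at
most two.  Suppose that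
* two nonneighbours `b, c ≠ 0` of `0` generate `A`, and the index of the subgroup generated by `b`
  is at most `4 p + 1` for every prime factor `p` of `n`; or
* some nonneighbour `b ≠ 0` of `0` has order at least `n / 7`, and the complement of `G` is
  connected; or
* for some `z` and `e` which generate `A` the elements `z - e`, `z`, `z + e` are nonneighbours of
  `0` other than `0`.
Then `G` is `(⌊n/2⌋ + 1)`-colourable and has a `K_{⌊n/2⌋}` minor, and so `G` has a `K_k` minor
whenever it is not `k`-colourable.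
(3) Let `G` be a Cayley graph of an abelian group `A` of even order `n`, with independence number
at most two and connected complement, and suppose that some nonneighbour of `0` other than `0` is
of the form `2 d`.  Then `G` is `n / 2`-colourable and has a `K_{n/2}` minor; so it satisfies
Hadwiger's conjecture: it has a `K_{k+1}` minor whenever it is not `k`-colourable. -/
theorem result :
    (∀ (V : Type) [Fintype V] (G : SimpleGraph V), AlphaAtMostTwo G →
      ∀ g : Equiv.Perm V, (∀ x y, G.Adj (g x) (g y) ↔ G.Adj x y) →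
      (∀ x, x ≠ g (g x) ∧ ¬ G.Adj x (g (g x))) →
      ((∀ x y, Odd (Function.minimalPeriod g x) → Odd (Function.minimalPeriod g y) →
          g.SameCycle x y) ∨
        ((∀ x, Odd (Function.minimalPeriod g x)) ∧
          ∀ f : Fin 4 → V, ∃ i j, i ≠ j ∧ g.SameCycle (f i) (f j)) ∨
        ((∀ x, Odd (Function.minimalPeriod g x)) ∧ ∃ q ≤ 3, ∃ u w : ℕ → V,
          (∀ i < q, u i ≠ w i ∧ ¬ G.Adj (u i) (w i)) ∧
          (∀ i < q, ∀ j < q, g.SameCycle (u i) (u j) → i = j) ∧
          (∀ i < q, ∀ j < q, g.SameCycle (w i) (w j) → i = j) ∧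
          (∀ i < q, ∀ j < q, ¬ g.SameCycle (u i) (w j)) ∧
          ∀ f : Fin (2 * q + 2) → V, ∃ i j, i ≠ j ∧ g.SameCycle (f i) (f j))) →
      HasCliqueMinor G (Fintype.card V / 2)) ∧
    (∀ (A : Type) [AddCommGroup A] [Fintype A] (G : SimpleGraph A), IsCayley G →
      AlphaAtMostTwo G → Odd (Fintype.card A) →
      ((∃ b c : A, b ≠ 0 ∧ c ≠ 0 ∧ ¬ G.Adj 0 b ∧ ¬ G.Adj 0 c ∧
          AddSubgroup.closure {b, c} = ⊤ ∧
          ∀ p : ℕ, p.Prime → p ∣ Fintype.card A → (AddSubgroup.zmultiples b).index ≤ 4 * p + 1) ∨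
        (Gᶜ.Connected ∧ ∃ b : A, b ≠ 0 ∧ ¬ G.Adj 0 b ∧ Fintype.card A ≤ 7 * addOrderOf b) ∨
        (∃ z e : A, z - e ≠ 0 ∧ z ≠ 0 ∧ z + e ≠ 0 ∧ ¬ G.Adj 0 (z - e) ∧ ¬ G.Adj 0 z ∧
          ¬ G.Adj 0 (z + e) ∧ AddSubgroup.closure {z, e} = ⊤)) →
      G.Colorable (Fintype.card A / 2 + 1) ∧ HasCliqueMinor G (Fintype.card A / 2) ∧
        ∀ k : ℕ, ¬ G.Colorable k → HasCliqueMinor G k) ∧
    (∀ (A : Type) [AddCommGroup A] [Fintype A] (G : SimpleGraph A), IsCayley G →
      AlphaAtMostTwo G → Even (Fintype.card A) → Gᶜ.Connected →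
      (∃ d : A, d + d ≠ 0 ∧ ¬ G.Adj 0 (d + d)) →
      G.Colorable (Fintype.card A / 2) ∧ HasCliqueMinor G (Fintype.card A / 2) ∧
        ∀ k : ℕ, ¬ G.Colorable k → HasCliqueMinor G (k + 1)) := by
  classical
  refine ⟨?_, ?_, ?_⟩
  · intro V _ G hα g hg h2 h
    have h2' : ∀ x, Gᶜ.Adj x (g (g x)) := fun x => by
      rw [SimpleGraph.compl_adj]; exact h2 x
    have hg' : IsAut G g := hg
    rcases h with h | ⟨h, h'⟩ | ⟨h, q, hq, u, w, hadj, c1, c2, c3, hcyc⟩
    · exact minor_one hα hg' h2' h
    · exact minor_three hα hg' h2' h h'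
    · exact minor_ext hα hg' h2' hq u w
        (fun i hi => by rw [SimpleGraph.compl_adj]; exact hadj i hi) c1 c2 c3 h hcyc
  · intro A _ _ G hG hα hodd h
    have main : G.Colorable (Fintype.card A / 2 + 1) ∧ CliqueMinor G (Fintype.card A / 2) := by
      rcases h with ⟨b, c, hb0, hc0, hb, hc, hgen, hidx⟩ | ⟨hconn, b, hb0, hb, hcard⟩ |
        ⟨z, e, h0, h1, h2, h3, h4, h5, hgen⟩
      · have hb' : Gᶜ.Adj 0 b := by rw [SimpleGraph.compl_adj]; exact ⟨hb0.symm, hb⟩
        have hc' : Gᶜ.Adj 0 c := by rw [SimpleGraph.compl_adj]; exact ⟨hc0.symm, hc⟩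
        exact ⟨color_two hG hodd hb' hc' hgen, minor_two hG hα hodd hb' hc' hgen hidx⟩
      · have hcol : G.Colorable (Fintype.card A / 2 + 1) :=
          color_conn hG hodd (conn_exists hG hconn)
        refine ⟨hcol, ?_⟩
        by_cases htop : AddSubgroup.zmultiples b = ⊤
        · exact minor_cyclic hG hα hodd ⟨b, htop⟩
        · obtain ⟨s, hs, hsB⟩ := conn_exists hG hconn _ htop
          rw [SimpleGraph.compl_adj] at hs
          exact (odd_index hG hα hodd hb0 hb hs.2 hsB hcard).1
      · have h3' : Gᶜ.Adj 0 (z - e) := by rw [SimpleGraph.compl_adj]; exact ⟨h0.symm, h3⟩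
        have h4' : Gᶜ.Adj 0 z := by rw [SimpleGraph.compl_adj]; exact ⟨h1.symm, h4⟩
        have h5' : Gᶜ.Adj 0 (z + e) := by rw [SimpleGraph.compl_adj]; exact ⟨h2.symm, h5⟩
        refine ⟨color_two hG hodd h4' h5' ?_, minor_span hG hα hodd h4' h5' h3' hgen⟩
        rw [eq_top_iff, ← hgen, AddSubgroup.closure_le]
        intro x hx
        have hz : z ∈ AddSubgroup.closure {z, z + e} := AddSubgroup.subset_closure (by simp)
        have hze : z + e ∈ AddSubgroup.closure {z, z + e} :=
          AddSubgroup.subset_closure (by simp)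
        rcases hx with rfl | hx
        · exact hz
        · rw [Set.mem_singleton_iff] at hx
          rw [hx]
          have := AddSubgroup.sub_mem _ hze hz
          rwa [add_sub_cancel_left] at this
    exact ⟨main.1, main.2, fun k hk => q1_of main.2 main.1 hk⟩
  · intro A _ _ G hG hα heven hconn ⟨d, h0, hd⟩
    have hcol := even_color hG heven hconn
    have hmin : CliqueMinor G (Fintype.card A / 2) := even_abelian hG hα heven h0 hd
    refine ⟨hcol, hmin, fun k hk => ?_⟩
    refine CliqueMinor.mono ?_ hmin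
    by_contra hc
    exact hk (hcol.mono (by omega))

end Pool.Agent.Results.MP_b47bfb_co.AbelianCayleyAlphaTwo
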