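import Pool.Agent.Y395.HD.Cay

/-!
MP_b47bfb_co: Hadwiger's conjecture, with an arbitrary factor to spare, for almost all Cayley
graphs of every finite group and for almost all spanning subgraphs of every dense graph.
-/

set_option autoImplicit false

namespace Pool.Agent.Results.MP_b47bfb_co.AlmostAllCayley

/-- `K_k` is a minor of `G`: there are `k` pairwise disjoint vertex sets, each inducing a connected
subgraph, any two of them joined by an edge of `G`. -/
def HasCliqueMinor {V : Type} (G : SimpleGraph V) (k : ℕ) : Prop :=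
  ∃ f : Fin k → Set V,
    (∀ i, (G.induce (f i)).Connected) ∧
    (∀ i j, i ≠ j → Disjoint (f i) (f j)) ∧
    (∀ i j, i ≠ j → ∃ u ∈ f i, ∃ v ∈ f j, G.Adj u v)

/-- `G` satisfies Hadwiger's conjecture with a factor `A` to spare: if `G` is not `k`-colourable,
then it has a `K_{A (k + 1)}` minor. (For `A ≥ 1` this implies Hadwiger's conjecture and Q1
for `G`.) -/
def Hadwiger {V : Type} (G : SimpleGraph V) (A : ℕ) : Prop :=
  ∀ k : ℕ, ¬ G.Colorable k → HasCliqueMinor G (A * (k + 1))

/-- The Cayley graph of the group `Γ` with connection set `S`: different elements `x`, `y` are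
joined if `x⁻¹ y` or `y⁻¹ x` lies in `S`. -/
def cayley {Γ : Type} [Group Γ] (S : Set Γ) : SimpleGraph Γ where
  Adj x y := x ≠ y ∧ (x⁻¹ * y ∈ S ∨ y⁻¹ * x ∈ S)
  symm := ⟨fun _ _ h => ⟨h.1.symm, h.2.symm⟩⟩
  loopless := ⟨fun _ h => h.1 rfl⟩

/-- The connection sets: sets of group elements closed under inverses and without `1`. -/
def connectionSets (Γ : Type) [Group Γ] : Set (Set Γ) := {S | 1 ∉ S ∧ ∀ g ∈ S, g⁻¹ ∈ S}

/-- (1) For all `A` and `ε > 0`: if `Γ` is any finite group of large order, then all but an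
`ε`-fraction of the Cayley graphs of `Γ` satisfy Hadwiger's conjecture with a factor `A` to spare.
(2) For all `A`, `p > 0` and `ε > 0`: if `n` is large and `G` is any graph with `n` vertices and at
least `p n ^ 2` edges, then all but an `ε`-fraction of the spanning subgraphs of `G` satisfy
Hadwiger's conjecture with a factor `A` to spare. -/
theorem result :
    (∀ A : ℕ, 1 ≤ A → ∀ ε : ℝ, 0 < ε → ∃ N : ℕ, ∀ (Γ : Type) [Group Γ] [Fintype Γ],
      N ≤ Fintype.card Γ →
      ({S : Set Γ | S ∈ connectionSets Γ ∧ ¬ Hadwiger (cayley S) A}.ncard : ℝ) ≤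
        ε * (connectionSets Γ).ncard) ∧
    (∀ A : ℕ, 1 ≤ A → ∀ p ε : ℝ, 0 < p → 0 < ε → ∃ N : ℕ, ∀ (V : Type) [Fintype V]
      (G : SimpleGraph V), N ≤ Fintype.card V →
      p * (Fintype.card V : ℝ) ^ 2 ≤ G.edgeSet.ncard →
      ({H : SimpleGraph V | H ≤ G ∧ ¬ Hadwiger H A}.ncard : ℝ) ≤
        ε * {H : SimpleGraph V | H ≤ G}.ncard) := by
  classical
  refine ⟨?_, ?_⟩
  · intro A hA ε hε
    obtain ⟨N, hN⟩ := Pool.Agent.Y395.HD.random_cayley hA hε
    refine ⟨N, ?_⟩
    intro Γ _ _ hV
    have h1 := hN Γ hV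
    have h2 : {S : Set Γ | S ∈ connectionSets Γ ∧ ¬ Hadwiger (cayley S) A}.ncard ≤
        ((Pool.Agent.Y395.HD.conn Γ).filter (fun S : Finset Γ =>
          ¬ Pool.Agent.Y395.HD.Hadwiger (Pool.Agent.Y395.HD.Cay S) A)).card := by
      rw [← Set.ncard_coe_finset]
      refine Set.ncard_le_ncard_of_injOn (fun S => S.toFinset) ?_ ?_ (Set.toFinite _)
      · rintro S ⟨⟨hS1, hS2⟩, hS3⟩
        rw [Finset.mem_coe, Finset.mem_filter, Pool.Agent.Y395.HD.mem_conn]
        refine ⟨⟨by simpa using hS1, by simpa using hS2⟩, ?_⟩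
        have h3 : Pool.Agent.Y395.HD.Cay S.toFinset = cayley S := by
          ext x y
          simp only [Pool.Agent.Y395.HD.Cay, cayley, Set.mem_toFinset]
        rw [h3]
        exact hS3
      · intro S _ S' _ h
        exact Set.toFinset_inj.1 h
    have h3 : (Pool.Agent.Y395.HD.conn Γ).card ≤ (connectionSets Γ).ncard := by
      rw [← Set.ncard_coe_finset]
      refine Set.ncard_le_ncard_of_injOn (fun S => (S : Set Γ)) ?_ ?_ (Set.toFinite _)
      · intro S hS
        rw [Finset.mem_coe, Pool.Agent.Y395.HD.mem_conn] at hS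
        exact ⟨by simpa using hS.1, by simpa using hS.2⟩
      · intro S _ S' _ h
        exact Finset.coe_injective h
    calc ({S : Set Γ | S ∈ connectionSets Γ ∧ ¬ Hadwiger (cayley S) A}.ncard : ℝ) ≤ _ := by
          exact_mod_cast h2
      _ ≤ ε * (Pool.Agent.Y395.HD.conn Γ).card := h1
      _ ≤ ε * (connectionSets Γ).ncard := by
          refine mul_le_mul_of_nonneg_left ?_ hε.le
          exact_mod_cast h3
  · intro A hA p ε hp hε
    obtain ⟨N, hN⟩ := Pool.Agent.Y395.HD.random_subgraph hA hp hε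
    refine ⟨N, ?_⟩
    intro V _ G hV hG
    have hE : G.edgeSet.ncard = G.edgeFinset.card := by
      rw [← SimpleGraph.coe_edgeFinset, Set.ncard_coe_finset]
    rw [hE] at hG
    have h1 := hN V G hV hG
    -- the bad subgraphs
    have h2 : {H : SimpleGraph V | H ≤ G ∧ ¬ Hadwiger H A}.ncard ≤
        (G.edgeFinset.powerset.filter (fun F : Finset (Sym2 V) =>
        ¬ Pool.Agent.Y395.HD.Hadwiger (SimpleGraph.fromEdgeSet (F : Set (Sym2 V))) A)).card := by
      rw [← Set.ncard_coe_finset]
      refine Set.ncard_le_ncard_of_injOn (fun H => H.edgeFinset) ?_ ?_ (Set.toFinite _)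
      · rintro H ⟨hH1, hH2⟩
        rw [Finset.mem_coe, Finset.mem_filter, Finset.mem_powerset, SimpleGraph.coe_edgeFinset,
          SimpleGraph.fromEdgeSet_edgeSet]
        exact ⟨SimpleGraph.edgeFinset_subset_edgeFinset.2 hH1, hH2⟩
      · intro H _ H' _ h
        exact SimpleGraph.edgeFinset_inj.1 h
    have h3 : 2 ^ G.edgeFinset.card ≤ {H : SimpleGraph V | H ≤ G}.ncard := by
      rw [← Finset.card_powerset, ← Set.ncard_coe_finset]
      refine Set.ncard_le_ncard_of_injOn
        (fun F => SimpleGraph.fromEdgeSet (F : Set (Sym2 V))) ?_ ?_ (Set.toFinite _)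
      · intro F hF
        rw [Finset.mem_coe, Finset.mem_powerset] at hF
        intro x y hxy
        rw [SimpleGraph.fromEdgeSet_adj] at hxy
        have := hF hxy.1
        rwa [SimpleGraph.mem_edgeFinset] at this
      · intro F hF F' hF' h
        rw [Finset.mem_coe, Finset.mem_powerset] at hF hF'
        have key : ∀ F : Finset (Sym2 V), F ⊆ G.edgeFinset →
            (SimpleGraph.fromEdgeSet (F : Set (Sym2 V))).edgeSet = (F : Set (Sym2 V)) := by
          intro F hF
          rw [SimpleGraph.edgeSet_fromEdgeSet]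
          ext e
          rw [Set.mem_sdiff, Finset.mem_coe, Sym2.mem_diagSet]
          refine ⟨fun h => h.1, fun h => ⟨h, ?_⟩⟩
          have := hF h
          rw [SimpleGraph.mem_edgeFinset] at this
          exact G.not_isDiag_of_mem_edgeSet this
        have h4 := congrArg SimpleGraph.edgeSet h
        simp only [key F hF, key F' hF'] at h4
        exact_mod_cast h4
    calc ({H : SimpleGraph V | H ≤ G ∧ ¬ Hadwiger H A}.ncard : ℝ) ≤ _ := by exact_mod_cast h2
      _ ≤ ε * 2 ^ G.edgeFinset.card := h1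
      _ ≤ ε * {H : SimpleGraph V | H ≤ G}.ncard := by
          refine mul_le_mul_of_nonneg_left ?_ hε.le
          exact_mod_cast h3

end Pool.Agent.Results.MP_b47bfb_co.AlmostAllCayley
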