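import Pool.Agent.Y395.HD.Rand

/-!
MP_b47bfb_co: Hadwiger's conjecture, with an arbitrary factor to spare, for dense graphs whose
cliques have at most `exp (c sqrt (log n))` vertices.
-/

set_option autoImplicit false

namespace Pool.Agent.Results.MP_b47bfb_co.DenseSmallCliques

/-- `K_k` is a minor of `G`: there are `k` pairwise disjoint vertex sets, each inducing a connected
subgraph, any two of them joined by an edge of `G`. -/
def HasCliqueMinor {V : Type} (G : SimpleGraph V) (k : ℕ) : Prop :=
  ∃ f : Fin k → Set V,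
    (∀ i, (G.induce (f i)).Connected) ∧
    (∀ i j, i ≠ j → Disjoint (f i) (f j)) ∧
    (∀ i j, i ≠ j → ∃ u ∈ f i, ∃ v ∈ f j, G.Adj u v)

/-- `G` satisfies Hadwiger's conjecture with a factor `A` to spare: if `G` is not `k`-colourable,
then it has a `K_{A (k + 1)}` minor. (For `A ≥ 1` this implies Hadwiger's conjecture and Q1
for `G`.) -/
def Hadwiger {V : Type} (G : SimpleGraph V) (A : ℕ) : Prop :=
  ∀ k : ℕ, ¬ G.Colorable k → HasCliqueMinor G (A * (k + 1))

/-- Let `G` be a graph with `n` vertices and average degree `d` in which every clique has at most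
`w` vertices. If `10 ^ 7 A log (w + 1) ≤ (d / n) ^ 4 sqrt (log n)`, then `G` satisfies Hadwiger's
conjecture with a factor `A` to spare. -/
theorem result (V : Type) [Fintype V] (G : SimpleGraph V) (A w : ℕ) (hA : 1 ≤ A)
    (hcl : ∀ K : Finset V, G.IsClique (K : Set V) → K.card ≤ w)
    (h : 10 ^ 7 * (A : ℝ) * Real.log (w + 1) ≤
      (2 * (G.edgeSet.ncard : ℝ) / (Fintype.card V : ℝ) ^ 2) ^ 4 *
        Real.sqrt (Real.log (Fintype.card V))) :
    Hadwiger G A := by
  classical
  intro k hk
  have hA1 : (1 : ℝ) ≤ A := by exact_mod_cast hA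
  have hcl' : ∀ K : Finset V, (∀ u ∈ K, ∀ v ∈ K, u ≠ v → G.Adj u v) → K.card ≤ w :=
    fun K hK => hcl K (fun u hu v hv huv => hK u hu v hv huv)
  rcases Nat.eq_zero_or_pos G.edgeSet.ncard with h0 | h0
  · exfalso
    rw [h0] at h
    norm_num at h
    have hw : w = 0 := by
      by_contra hw
      have hw1 : (1 : ℝ) ≤ w := by exact_mod_cast Nat.one_le_iff_ne_zero.2 hw
      have h1 : 0 < Real.log (w + 1) := Real.log_pos (by linarith)
      have h2 : 0 < (A : ℝ) * Real.log (w + 1) := by positivity
      linarith
    apply hk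
    have hemp : IsEmpty V := by
      refine ⟨fun v => ?_⟩
      have := hcl' {v} (by
        intro x hx y hy hxy
        rw [Finset.mem_singleton] at hx hy
        exact absurd (hx.trans hy.symm) hxy)
      rw [Finset.card_singleton, hw] at this
      omega
    exact SimpleGraph.Colorable.of_isEmpty k
  · have hV : 0 < Fintype.card V := by
      rcases Nat.eq_zero_or_pos (Fintype.card V) with h1 | h1
      · exfalso
        have : IsEmpty V := Fintype.card_eq_zero_iff.1 h1
        have h2 : G.edgeSet = ∅ := by
          rw [Set.eq_empty_iff_forall_notMem]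
          intro e
          exact Sym2.ind (fun x _ => isEmptyElim x) e
        rw [h2, Set.ncard_empty] at h0
        omega
      · exact h1
    have hn : (0 : ℝ) < Fintype.card V := by exact_mod_cast hV
    have he : (0 : ℝ) < G.edgeSet.ncard := by exact_mod_cast h0
    refine Pool.Agent.Y395.HD.hadwiger_of_clique G hA
      (q := 2 * (G.edgeSet.ncard : ℝ) / (Fintype.card V : ℝ) ^ 2) (by positivity) ?_ hcl' h hk
    rw [Pool.Agent.Y395.HD.sum_nb]
    refine le_of_eq ?_
    field_simp

end Pool.Agent.Results.MP_b47bfb_co.DenseSmallCliques
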