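import Pool.Agent.Y395.HD.TransB

/-!
MP_b47bfb_co: Hadwiger's conjecture, with an arbitrary factor to spare, for dense vertex-transitive
graphs whose independence number is not too small; a large vertex-transitive graph which is neither
sparse nor co-sparse satisfies Hadwiger's conjecture or its complement does.
-/

set_option autoImplicit false

namespace Pool.Agent.Results.MP_b47bfb_co.DenseVertexTransitive

/-- `K_k` is a minor of `G`: there are `k` pairwise disjoint vertex sets, each inducing a connected
subgraph, any two of them joined by an edge of `G`. -/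
def HasCliqueMinor {V : Type} (G : SimpleGraph V) (k : ℕ) : Prop :=
  ∃ f : Fin k → Set V,
    (∀ i, (G.induce (f i)).Connected) ∧
    (∀ i j, i ≠ j → Disjoint (f i) (f j)) ∧
    (∀ i j, i ≠ j → ∃ u ∈ f i, ∃ v ∈ f j, G.Adj u v)

/-- `G` satisfies Hadwiger's conjecture with a factor `A` to spare: if `G` is not `k`-colourable,
then it has a `K_{A (k + 1)}` minor. (For `A ≥ 1` this implies Hadwiger's conjecture and Q1
for `G`.) -/
def Hadwiger {V : Type} (G : SimpleGraph V) (A : ℕ) : Prop :=
  ∀ k : ℕ, ¬ G.Colorable k → HasCliqueMinor G (A * (k + 1))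

/-- `G` is vertex-transitive. -/
def Transitive {V : Type} (G : SimpleGraph V) : Prop := ∀ x y : V, ∃ φ : G ≃g G, φ x = y

/-- The independent set `I` is not empty. -/
def IndepNonempty {V : Type} (G : SimpleGraph V) (I : Finset V) : Prop :=
  I.Nonempty ∧ ∀ u ∈ I, ∀ v ∈ I, ¬ G.Adj u v

/-- Let `G` be a vertex-transitive graph with `n` vertices.

(1) Let `D` be the number of non-neighbours of a vertex (the vertex itself included), `16 D ≤ n`.
If `G` has an independent set with `α` vertices and
`2000 A (1 + log α) ≤ α sqrt (log (n / D) / log n)`, then `G` satisfies Hadwiger's conjecture with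
a factor `A` to spare. (So for `D ≤ n ^ (1 - δ)` all `α ≥ C(δ)` are allowed.)
(2) Let every vertex have at least `q n` neighbours, `8 ≤ q sqrt (log n)`. If `G` has an
independent set with `α` vertices and `2 * 10 ^ 6 A (1 + log α) sqrt (log n) ≤ q ^ 4 α`, then `G`
satisfies Hadwiger's conjecture with a factor `A` to spare.
(3) For all `A` and `p > 0`: if `n` is large and the vertices of `G` have at least `p n` and at most
`(1 - p) n` neighbours, then `G` satisfies Hadwiger's conjecture with a factor `A` to spare or the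
complement of `G` does. -/
theorem result :
    (∀ (V : Type) [Fintype V] (G : SimpleGraph V) (A D : ℕ) (I : Finset V), Transitive G →
      IndepNonempty G I → (∀ v : V, {w | ¬ G.Adj v w}.ncard = D) → 16 * D ≤ Fintype.card V →
      2000 * (A : ℝ) * (1 + Real.log I.card) ≤ I.card *
        Real.sqrt (Real.log (Fintype.card V / D) / Real.log (Fintype.card V)) →
      Hadwiger G A) ∧
    (∀ (V : Type) [Fintype V] (G : SimpleGraph V) (A : ℕ) (I : Finset V) (q : ℝ), Transitive G →
      IndepNonempty G I → 0 < q → (∀ v : V, q * Fintype.card V ≤ {w | G.Adj v w}.ncard) →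
      8 ≤ q * Real.sqrt (Real.log (Fintype.card V)) →
      2 * 10 ^ 6 * (A : ℝ) * (1 + Real.log I.card) * Real.sqrt (Real.log (Fintype.card V)) ≤
        q ^ 4 * I.card →
      Hadwiger G A) ∧
    (∀ A : ℕ, 1 ≤ A → ∀ p : ℝ, 0 < p → ∃ N : ℕ, ∀ (V : Type) [Fintype V] (G : SimpleGraph V),
      N ≤ Fintype.card V → Transitive G →
      (∀ v : V, p * Fintype.card V ≤ {w | G.Adj v w}.ncard) →
      (∀ v : V, ({w | G.Adj v w}.ncard : ℝ) ≤ (1 - p) * Fintype.card V) →
      Hadwiger G A ∨ Hadwiger Gᶜ A) := by
  classical
  have hnb : ∀ (V : Type) [Fintype V] (G : SimpleGraph V) (v : V),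
      (Pool.Agent.Y395.HD.nb G v).card = {w | G.Adj v w}.ncard := by
    intro V _ G v
    rw [← Set.ncard_coe_finset]
    congr 1
    ext w
    simp [Pool.Agent.Y395.HD.mem_nb]
  refine ⟨?_, ?_, ?_⟩
  · intro V _ G A D I htr hI hD hDn h
    refine Pool.Agent.Y395.HD.transitive_very_dense G htr I hI.2 (Finset.card_pos.2 hI.1) ?_ hDn h
    intro v
    rw [← hD v, ← Set.ncard_coe_finset]
    congr 1
    ext w
    simp [Pool.Agent.Y395.HD.mem_nb]
  · intro V _ G A I q htr hI hq hdeg hL h
    refine Pool.Agent.Y395.HD.transitive_dense G htr I hI.2 (Finset.card_pos.2 hI.1) hq ?_ hL h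
    intro v
    rw [hnb]
    exact hdeg v
  · intro A hA p hp
    exact Pool.Agent.Y395.HD.dichotomy hA hp

end Pool.Agent.Results.MP_b47bfb_co.DenseVertexTransitive
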